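import Pool.Agent.helper52.T1.SpecS
import Pool.Agent.helper21.T1.MON

/-!
# Row t1:SUB (MP_07c750_an): submultiplicativity of the leaf inequality
-/

set_option autoImplicit false

open scoped MatrixGroups ContDiff Topology UpperHalfPlane ComplexConjugate
open UpperHalfPlane MeasureTheory Filter Set

namespace Pool.Agent.T1

open Pool.Agent.RS Pool.Agent.MS Pool.Agent.HV
open Pool.Agent.EN (XG MG mkX mkM fl pr)

noncomputable section

theorem SUB_fib {M : Type} [AddCommMonoid M] (S : Finset ℕ) (n : ℕ) (g : ℕ → M) :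
    ∑ c ∈ S, g c = ∑ q ∈ S.image (fun c => c / n), ∑ r ∈ (S.filter fun c => c / n = q).image (fun c => c % n), g (n * q + r) := by
  rw [← Finset.sum_fiberwise_of_maps_to (g := fun c => c / n) (t := S.image (fun c => c / n)) (fun c hc => Finset.mem_image_of_mem _ hc) g]
  refine Finset.sum_congr rfl fun q _ => ?_
  rw [Finset.sum_image]
  · refine Finset.sum_congr rfl fun c hc => ?_
    rw [Finset.mem_filter] at hc
    rw [← hc.2, Nat.div_add_mod]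
  · intro x hx y hy hxy
    simp only [Finset.coe_filter, mem_setOf_eq] at hx hy
    have h1 := Nat.div_add_mod x n
    have h2 := Nat.div_add_mod y n
    dsimp only at hxy
    rw [hx.2, hxy] at h1
    rw [hy.2] at h2
    exact h1.symm.trans h2

theorem SUB_cv (N : ℝ) (hN : 0 < N) (c : ℝ) (F : ℝ → ℝ) :
    ∫ v in Ico (c / N) ((c + 1) / N), F v = N⁻¹ * ∫ u in Ioc (0 : ℝ) 1, F ((c + u) / N) := by
  have h0 : ∫ u in Ioc (0 : ℝ) 1, F ((c + u) / N) = ∫ u in Ico (0 : ℝ) 1, F ((c + u) / N) := by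
    rw [integral_Ico_eq_integral_Ioc]
  rw [h0, ← integral_indicator measurableSet_Ico, ← integral_indicator measurableSet_Ico]
  have h1 : ∀ v : ℝ, (Ico (c / N) ((c + 1) / N)).indicator F v = (Ico (0 : ℝ) 1).indicator (fun u => F ((c + u) / N)) (N * v - c) := by
    intro v
    by_cases hv : v ∈ Ico (c / N) ((c + 1) / N)
    · have h2 : N * v - c ∈ Ico (0 : ℝ) 1 := by
        obtain ⟨h3, h4⟩ := hv
        rw [div_le_iff₀ hN] at h3
        rw [lt_div_iff₀ hN] at h4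
        constructor <;> linarith
      rw [indicator_of_mem hv, indicator_of_mem h2]
      congr 1
      field_simp
      ring
    · have h2 : N * v - c ∉ Ico (0 : ℝ) 1 := by
        rintro ⟨h3, h4⟩
        apply hv
        constructor
        · rw [div_le_iff₀ hN]
          linarith
        · rw [lt_div_iff₀ hN]
          linarith
      rw [indicator_of_notMem hv, indicator_of_notMem h2]
  simp only [h1]
  have h3 := MeasureTheory.Measure.integral_comp_mul_left (fun x : ℝ => (Ico (0 : ℝ) 1).indicator (fun u => F ((c + u) / N)) (x - c)) N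
  rw [h3, integral_sub_right_eq_self (fun x : ℝ => (Ico (0 : ℝ) 1).indicator (fun u => F ((c + u) / N)) x) c, abs_of_pos (inv_pos.2 hN), smul_eq_mul]

theorem SUB_cel (N : ℕ) (hN : 1 ≤ N) (C : Finset ℕ) (F : ℝ → ℝ) (hF : Continuous F) :
    ∫ v in cel N C, F v = ∑ c ∈ C, (N : ℝ)⁻¹ * ∫ u in Ioc (0 : ℝ) 1, F ((c + u) / N) := by
  have hNR : (0 : ℝ) < N := by exact_mod_cast hN
  have hcel : cel N C = ⋃ c ∈ C, Ico ((c : ℝ) / N) (((c : ℝ) + 1) / N) := by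
    ext v
    simp only [cel, mem_setOf_eq, mem_iUnion, mem_Ico, exists_prop]
  rw [hcel, integral_biUnion_finset C (fun c _ => measurableSet_Ico)]
  · exact Finset.sum_congr rfl fun c _ => SUB_cv N hNR c F
  · intro c _ c' _ hcc
    rw [Function.onFun, Set.disjoint_left]
    rintro v ⟨h1, h2⟩ ⟨h3, h4⟩
    apply hcc
    rw [div_le_iff₀ hNR] at h1 h3
    rw [lt_div_iff₀ hNR] at h2 h4
    have h5 : (c : ℝ) < c' + 1 := by linarith
    have h6 : (c' : ℝ) < c + 1 := by linarith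
    have h7 : c < c' + 1 := by exact_mod_cast h5
    have h8 : c' < c + 1 := by exact_mod_cast h6
    omega
  · intro c _
    exact hF.integrableOn_Icc.mono_set Ico_subset_Icc_self

theorem SUB_sq (g : ℝ → ℝ) (hg : Continuous g) : (∫ u in Ioc (0 : ℝ) 1, g u) ^ 2 ≤ ∫ u in Ioc (0 : ℝ) 1, g u ^ 2 := by
  set m : ℝ := ∫ u in Ioc (0 : ℝ) 1, g u with hm
  have hi : ∀ f : ℝ → ℝ, Continuous f → IntegrableOn f (Ioc (0 : ℝ) 1) := fun f hf => hf.integrableOn_Icc.mono_set Ioc_subset_Icc_self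
  have h1 : 0 ≤ ∫ u in Ioc (0 : ℝ) 1, (g u - m) ^ 2 := integral_nonneg fun u => sq_nonneg _
  have h2 : ∫ u in Ioc (0 : ℝ) 1, (g u - m) ^ 2 = (∫ u in Ioc (0 : ℝ) 1, g u ^ 2) - 2 * m * m + m ^ 2 := by
    have h3 : ∀ u : ℝ, (g u - m) ^ 2 = g u ^ 2 - 2 * m * g u + m ^ 2 := fun u => by ring
    simp only [h3]
    rw [integral_add (hi (fun u => g u ^ 2 - 2 * m * g u) (by fun_prop)) (hi (fun _ => m ^ 2) (by fun_prop)), integral_sub (hi (fun u => g u ^ 2) (by fun_prop)) (hi (fun u => 2 * m * g u) (by fun_prop)),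
      integral_const_mul, ← hm]
    simp
  rw [h2] at h1
  nlinarith

theorem SUB_cs (G : ℝ → ℂ) (hG : Continuous G) (v : ℝ) (h0 : 0 ≤ v) (h1 : v ≤ 1) :
    ‖∫ u in (0 : ℝ)..v, G u‖ ^ 2 ≤ ∫ u in Ioc (0 : ℝ) 1, ‖G u‖ ^ 2 := by
  have hn : Continuous fun u => ‖G u‖ := hG.norm
  have h2 : ‖∫ u in (0 : ℝ)..v, G u‖ ≤ ∫ u in Ioc (0 : ℝ) 1, ‖G u‖ := by
    refine (intervalIntegral.norm_integral_le_integral_norm h0).trans ?_
    rw [intervalIntegral.integral_of_le h0]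
    exact setIntegral_mono_set (hn.integrableOn_Icc.mono_set Ioc_subset_Icc_self) (Filter.Eventually.of_forall fun u => norm_nonneg _)
      (HasSubset.Subset.eventuallyLE (Ioc_subset_Ioc_right h1))
  exact (pow_le_pow_left₀ (norm_nonneg _) h2 2).trans (SUB_sq _ hn)

theorem SUB_B (b b' : ℝ → ℂ) (hb : ∀ u, HasDerivAt b (b' u) u) (hb' : Continuous b') :
    ‖b 0‖ ^ 2 ≤ 2 * (∫ u in Ioc (0 : ℝ) 1, ‖b u‖ ^ 2) + 2 * ∫ u in Ioc (0 : ℝ) 1, ‖b' u‖ ^ 2 := by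
  have hbc : Continuous b := continuous_iff_continuousAt.2 fun u => (hb u).continuousAt
  set m : ℝ := ∫ u in Ioc (0 : ℝ) 1, ‖b' u‖ ^ 2 with hm
  have h1 : ∀ u ∈ Ioc (0 : ℝ) 1, ‖b 0‖ ^ 2 ≤ 2 * ‖b u‖ ^ 2 + 2 * m := by
    intro u hu
    have h2 : ∫ s in (0 : ℝ)..u, b' s = b u - b 0 := intervalIntegral.integral_eq_sub_of_hasDerivAt (fun s _ => hb s) (hb'.intervalIntegrable _ _)
    have h3 : b 0 = b u + -∫ s in (0 : ℝ)..u, b' s := by
      rw [h2]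
      ring
    have h4 := MON_sq (b u) (-∫ s in (0 : ℝ)..u, b' s)
    rw [← h3, norm_neg] at h4
    have h5 := SUB_cs b' hb' u hu.1.le hu.2
    linarith
  have hI : IntegrableOn (fun u => 2 * ‖b u‖ ^ 2 + 2 * m) (Ioc (0 : ℝ) 1) := by
    have h2 : Continuous (fun u => 2 * ‖b u‖ ^ 2 + 2 * m) := by fun_prop
    exact h2.integrableOn_Icc.mono_set Ioc_subset_Icc_self
  have h3 : ∫ _ in Ioc (0 : ℝ) 1, ‖b 0‖ ^ 2 ≤ ∫ u in Ioc (0 : ℝ) 1, (2 * ‖b u‖ ^ 2 + 2 * m) :=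
    setIntegral_mono_on (integrableOn_const (by simp)) hI measurableSet_Ioc h1
  have h4 : Continuous fun u => 2 * ‖b u‖ ^ 2 := by fun_prop
  rw [integral_add (h4.integrableOn_Icc.mono_set Ioc_subset_Icc_self) (integrableOn_const (by simp)), integral_const_mul] at h3
  simpa using h3

theorem SUB_A (E : Set ℝ) (hEm : MeasurableSet E) (hE : E ⊆ Icc 0 1) (D : Finset ℕ) (Q : ℝ) (h : LQ E D Q) (b b' : ℕ → ℝ → ℂ) (hb : ∀ d u, HasDerivAt (b d) (b' d u) u) (hb' : ∀ d, Continuous (b' d)) :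
    ∫ v in E, ‖∑ d ∈ D, b d v * e1 (d * v)‖ ^ 2 ≤ 2 * (Q * ∑ d ∈ D, (‖b d 0‖ ^ 2 + ∫ u in Ioc (0 : ℝ) 1, ‖b' d u‖ ^ 2)) := by
  have hbc : ∀ d, Continuous (b d) := fun d => continuous_iff_continuousAt.2 fun u => (hb d u).continuousAt
  have he : Continuous e1 := by
    unfold e1
    fun_prop
  have hfin : volume E ≠ ⊤ := ne_top_of_le_ne_top (by simp) (measure_mono hE)
  -- the double function
  set g : ℝ → ℝ → ℝ := fun v u => ‖∑ d ∈ D, b' d u * e1 (d * v)‖ ^ 2 with hg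
  have hgc : Continuous (Function.uncurry g) := by
    rw [hg]
    unfold Function.uncurry
    refine (Continuous.norm (continuous_finset_sum _ fun d _ => ?_)).pow 2
    exact ((hb' d).comp continuous_snd).mul (he.comp (continuous_const.mul continuous_fst))
  have h1 : ∀ v ∈ E, ‖∑ d ∈ D, b d v * e1 (d * v)‖ ^ 2 ≤ 2 * ‖∑ d ∈ D, b d 0 * e1 (d * v)‖ ^ 2 + 2 * ∫ u in Ioc (0 : ℝ) 1, g v u := by
    intro v hv
    have hv2 := hE hv
    have h2 : ∀ d, b d v = b d 0 + ∫ s in (0 : ℝ)..v, b' d s := by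
      intro d
      rw [intervalIntegral.integral_eq_sub_of_hasDerivAt (fun s _ => hb d s) ((hb' d).intervalIntegrable _ _)]
      ring
    have h3 : ∑ d ∈ D, b d v * e1 (d * v) = ∑ d ∈ D, b d 0 * e1 (d * v) + ∫ s in (0 : ℝ)..v, ∑ d ∈ D, b' d s * e1 (d * v) := by
      rw [intervalIntegral.integral_finset_sum, ← Finset.sum_add_distrib]
      · refine Finset.sum_congr rfl fun d _ => ?_
        rw [intervalIntegral.integral_mul_const, h2 d]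
        ring
      · intro d _
        exact ((hb' d).mul continuous_const).intervalIntegrable _ _
    rw [h3]
    refine (MON_sq _ _).trans ?_
    have h4 : Continuous fun s => ∑ d ∈ D, b' d s * e1 (d * v) := continuous_finset_sum _ fun d _ => (hb' d).mul continuous_const
    have h5 := SUB_cs (fun s => ∑ d ∈ D, b' d s * e1 (d * v)) h4 v hv2.1 hv2.2
    have h6 : ∫ u in Ioc (0 : ℝ) 1, g v u = ∫ u in Ioc (0 : ℝ) 1, ‖∑ d ∈ D, b' d u * e1 (d * v)‖ ^ 2 := rfl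
    rw [h6]
    linarith
  have hK : IsCompact (Icc (0 : ℝ) 1 ×ˢ Icc (0 : ℝ) 1) := isCompact_Icc.prod isCompact_Icc
  have hint : Integrable (Function.uncurry g) ((volume.restrict E).prod (volume.restrict (Ioc (0 : ℝ) 1))) := by
    rw [Measure.prod_restrict]
    exact (hgc.continuousOn.integrableOn_compact hK).mono_set (prod_mono hE Ioc_subset_Icc_self)
  have hint2 : IntegrableOn (fun v => ∫ u in Ioc (0 : ℝ) 1, g v u) E := hint.integral_prod_left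
  have hint3 : IntegrableOn (fun u => ∫ v in E, g v u) (Ioc (0 : ℝ) 1) := hint.integral_prod_right
  have hf0 : Continuous fun v : ℝ => ‖∑ d ∈ D, b d 0 * e1 (d * v)‖ ^ 2 := by
    refine (Continuous.norm (continuous_finset_sum _ fun d _ => ?_)).pow 2
    exact continuous_const.mul (he.comp (continuous_const.mul continuous_id))
  have hf1 : Continuous fun v : ℝ => ‖∑ d ∈ D, b d v * e1 (d * v)‖ ^ 2 := by
    refine (Continuous.norm (continuous_finset_sum _ fun d _ => ?_)).pow 2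
    exact (hbc d).mul (he.comp (continuous_const.mul continuous_id))
  have hf0i : IntegrableOn (fun v : ℝ => 2 * ‖∑ d ∈ D, b d 0 * e1 (d * v)‖ ^ 2) E := ((hf0.integrableOn_Icc).mono_set hE).const_mul 2
  have h7 : ∫ v in E, ‖∑ d ∈ D, b d v * e1 (d * v)‖ ^ 2 ≤ ∫ v in E, (2 * ‖∑ d ∈ D, b d 0 * e1 (d * v)‖ ^ 2 + 2 * ∫ u in Ioc (0 : ℝ) 1, g v u) :=
    setIntegral_mono_on ((hf1.integrableOn_Icc).mono_set hE) (hf0i.add (hint2.const_mul 2)) hEm h1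
  rw [integral_add hf0i (hint2.const_mul 2), integral_const_mul, integral_const_mul] at h7
  have h8 : ∫ v in E, ∫ u in Ioc (0 : ℝ) 1, g v u = ∫ u in Ioc (0 : ℝ) 1, ∫ v in E, g v u := integral_integral_swap hint
  have h9 : ∫ u in Ioc (0 : ℝ) 1, ∫ v in E, g v u ≤ ∫ u in Ioc (0 : ℝ) 1, Q * ∑ d ∈ D, ‖b' d u‖ ^ 2 := by
    have h10 : Continuous fun u : ℝ => Q * ∑ d ∈ D, ‖b' d u‖ ^ 2 := continuous_const.mul (continuous_finset_sum _ fun d _ => ((hb' d).norm).pow 2)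
    exact setIntegral_mono_on hint3 (h10.integrableOn_Icc.mono_set Ioc_subset_Icc_self) measurableSet_Ioc fun u _ => h fun d => b' d u
  have h11 : ∫ u in Ioc (0 : ℝ) 1, Q * ∑ d ∈ D, ‖b' d u‖ ^ 2 = Q * ∑ d ∈ D, ∫ u in Ioc (0 : ℝ) 1, ‖b' d u‖ ^ 2 := by
    rw [integral_const_mul, integral_finset_sum]
    intro d _
    exact (((hb' d).norm).pow 2).integrableOn_Icc.mono_set Ioc_subset_Icc_self
  have h12 := h fun d => b d 0
  rw [h8] at h7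
  rw [h11] at h9
  rw [Finset.sum_add_distrib, mul_add]
  linarith

theorem SUB_e1deriv (c u : ℝ) (e N : ℝ) : HasDerivAt (fun u : ℝ => e1 (e * ((c + u) / N))) (((2 * Real.pi * (e / N) : ℝ) : ℂ) * Complex.I * e1 (e * ((c + u) / N))) u := by
  unfold e1
  have h1 : HasDerivAt (fun u : ℝ => (2 * Real.pi * (e * ((c + u) / N)) : ℝ)) (2 * Real.pi * (e / N)) u := by
    have h2 : HasDerivAt (fun u : ℝ => c + u) 1 u := by simpa using (hasDerivAt_id u).const_add c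
    have h3 := ((h2.div_const N).const_mul e).const_mul (2 * Real.pi)
    have h4 : 2 * Real.pi * (e * (1 / N)) = 2 * Real.pi * (e / N) := by ring
    rw [h4] at h3
    exact h3
  have h5 := ((h1.ofReal_comp).mul_const Complex.I).cexp
  have h6 : Complex.exp (((2 * Real.pi * (e * ((c + u) / N)) : ℝ) : ℂ) * Complex.I) * (((2 * Real.pi * (e / N) : ℝ) : ℂ) * Complex.I) =
      ((2 * Real.pi * (e / N) : ℝ) : ℂ) * Complex.I * Complex.exp (((2 * Real.pi * (e * ((c + u) / N)) : ℝ) : ℂ) * Complex.I) := mul_comm _ _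
  rw [← h6]
  exact h5

/-- the trigonometric polynomial -/
def SUB_P (J : Finset ℕ) (a : ℕ → ℂ) (v : ℝ) : ℂ := ∑ j ∈ J, a j * e1 (j * v)

theorem SUB_Pc (J : Finset ℕ) (a : ℕ → ℂ) : Continuous (SUB_P J a) := by
  unfold SUB_P e1
  fun_prop

/-- the coefficients of the derivative -/
def SUB_da (N : ℕ) (a : ℕ → ℂ) (j : ℕ) : ℂ := a j * (((2 * Real.pi * ((j : ℝ) / N) : ℝ) : ℂ) * Complex.I)

theorem SUB_Pd (J : Finset ℕ) (a : ℕ → ℂ) (N : ℕ) (c u : ℝ) : HasDerivAt (fun u : ℝ => SUB_P J a ((c + u) / N)) (SUB_P J (SUB_da N a) ((c + u) / N)) u := by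
  unfold SUB_P
  have h1 : HasDerivAt (fun u : ℝ => ∑ j ∈ J, a j * e1 (j * ((c + u) / N))) (∑ j ∈ J, a j * (((2 * Real.pi * ((j : ℝ) / N) : ℝ) : ℂ) * Complex.I * e1 (j * ((c + u) / N)))) u :=
    HasDerivAt.fun_sum fun j _ => (SUB_e1deriv c u j N).const_mul (a j)
  have h2 : ∑ j ∈ J, a j * (((2 * Real.pi * ((j : ℝ) / N) : ℝ) : ℂ) * Complex.I * e1 (j * ((c + u) / N))) = ∑ j ∈ J, SUB_da N a j * e1 (j * ((c + u) / N)) := by
    refine Finset.sum_congr rfl fun j _ => ?_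
    unfold SUB_da
    ring
  rw [h2] at h1
  exact h1

theorem SUB_e1nat (m : ℕ) : e1 m = 1 := by
  unfold e1
  have h1 : (((2 * Real.pi * (m : ℝ) : ℝ) : ℂ) * Complex.I) = (m : ℤ) * (2 * Real.pi * Complex.I) := by
    push_cast
    ring
  rw [h1, Complex.exp_int_mul_two_pi_mul_I]

theorem SUB_split (N1 : ℕ) (hN1 : 1 ≤ N1) (J : Finset ℕ) (a : ℕ → ℂ) (c1 : ℕ) (v : ℝ) :
    SUB_P J a ((c1 + v) / N1) = ∑ d ∈ J.image (fun j => j / N1), SUB_P ((J.filter fun j => j / N1 = d).image (fun j => j % N1)) (fun e => a (N1 * d + e)) ((c1 + v) / N1) * e1 (d * v) := by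
  have hNR : (0 : ℝ) < N1 := by exact_mod_cast hN1
  unfold SUB_P
  rw [SUB_fib J N1]
  refine Finset.sum_congr rfl fun d _ => ?_
  rw [Finset.sum_mul]
  refine Finset.sum_congr rfl fun e _ => ?_
  have h1 : ((N1 * d + e : ℕ) : ℝ) * ((c1 + v) / N1) = ((d * c1 : ℕ) : ℝ) + (e * ((c1 + v) / N1) + d * v) := by
    push_cast
    field_simp
    ring
  rw [h1, MON_e1add, MON_e1add, SUB_e1nat]
  ring

theorem SUB_resc (N1 N2 : ℕ) (hN1 : 1 ≤ N1) (hN2 : 1 ≤ N2) (C : Finset ℕ) (F : ℝ → ℝ) (hF : Continuous F) :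
    ∫ v in cel (N1 * N2) C, F v = ∑ c1 ∈ C.image (fun c => c / N2), (N1 : ℝ)⁻¹ * ∫ v in cel N2 ((C.filter fun c => c / N2 = c1).image fun c => c % N2), F ((c1 + v) / N1) := by
  have h1R : (0 : ℝ) < N1 := by exact_mod_cast hN1
  have h2R : (0 : ℝ) < N2 := by exact_mod_cast hN2
  rw [SUB_cel (N1 * N2) (Nat.mul_pos hN1 hN2) C F hF, SUB_fib C N2]
  refine Finset.sum_congr rfl fun c1 _ => ?_
  rw [SUB_cel N2 hN2 _ (fun v => F ((c1 + v) / N1)) (by fun_prop), Finset.mul_sum]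
  refine Finset.sum_congr rfl fun c2 _ => ?_
  have h3 : ∀ u : ℝ, (((N2 * c1 + c2 : ℕ) : ℝ) + u) / ((N1 * N2 : ℕ) : ℝ) = (c1 + (c2 + u) / N2) / N1 := by
    intro u
    push_cast
    field_simp
    ring
  simp only [h3]
  push_cast
  rw [mul_inv]
  ring

theorem SUB_dan (N : ℕ) (J : Finset ℕ) (hJ : ∀ j ∈ J, j ≤ N) (hN : 1 ≤ N) (a : ℕ → ℂ) : ∑ j ∈ J, ‖SUB_da N a j‖ ^ 2 ≤ 4 * Real.pi ^ 2 * ∑ j ∈ J, ‖a j‖ ^ 2 := by
  have hNR : (0 : ℝ) < N := by exact_mod_cast hN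
  rw [Finset.mul_sum]
  refine Finset.sum_le_sum fun j hj => ?_
  have h1 : ‖SUB_da N a j‖ = ‖a j‖ * (2 * Real.pi * ((j : ℝ) / N)) := by
    unfold SUB_da
    rw [norm_mul, norm_mul, Complex.norm_I, mul_one, Complex.norm_real, Real.norm_of_nonneg]
    have := Real.pi_pos
    positivity
  have h2 : (j : ℝ) / N ≤ 1 := by
    rw [div_le_one hNR]
    exact_mod_cast hJ j hj
  have h3 : 0 ≤ (j : ℝ) / N := by positivity
  have h4 : ((j : ℝ) / N) ^ 2 ≤ 1 := pow_le_one₀ h3 h2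
  rw [h1]
  have h5 : (‖a j‖ * (2 * Real.pi * ((j : ℝ) / N))) ^ 2 = 4 * Real.pi ^ 2 * ‖a j‖ ^ 2 * ((j : ℝ) / N) ^ 2 := by ring
  rw [h5]
  have h6 : 0 ≤ 4 * Real.pi ^ 2 * ‖a j‖ ^ 2 := by positivity
  nlinarith

theorem SUB_proof : SUB_stmt := by
  classical
  refine ⟨4 + 24 * Real.pi ^ 2, by nlinarith [sq_nonneg Real.pi], ?_⟩
  intro N1 N2 C J Q1 Q2 hN1 hN2 hC hJ hQ1 hQ2 H2 H1 a
  have h1R : (0 : ℝ) < N1 := by exact_mod_cast hN1
  -- abbreviations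
  set Cp : Finset ℕ := C.image (fun c => c / N2) with hCp
  set Jp : Finset ℕ := J.image (fun j => j / N1) with hJp
  set Cc : ℕ → Finset ℕ := fun c1 => (C.filter fun c => c / N2 = c1).image fun c => c % N2 with hCc
  set Jd : ℕ → Finset ℕ := fun d => (J.filter fun j => j / N1 = d).image fun j => j % N1 with hJd
  have hcont : Continuous fun v : ℝ => ‖SUB_P J a v‖ ^ 2 := ((SUB_Pc J a).norm).pow 2
  have e1' : ∫ v in cel (N1 * N2) C, ‖∑ j ∈ J, a j * e1 (j * v)‖ ^ 2 = ∑ c1 ∈ Cp, (N1 : ℝ)⁻¹ * ∫ v in cel N2 (Cc c1), ‖SUB_P J a ((c1 + v) / N1)‖ ^ 2 :=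
    SUB_resc N1 N2 hN1 hN2 C (fun v => ‖SUB_P J a v‖ ^ 2) hcont
  rw [e1']
  -- the inner inequality
  have e2 : ∀ c1 ∈ Cp, ∫ v in cel N2 (Cc c1), ‖SUB_P J a ((c1 + v) / N1)‖ ^ 2 ≤
      2 * (Q2 * ∑ d ∈ Jp, (2 * (∫ u in Ioc (0 : ℝ) 1, ‖SUB_P (Jd d) (fun e => a (N1 * d + e)) ((c1 + u) / N1)‖ ^ 2) +
        3 * ∫ u in Ioc (0 : ℝ) 1, ‖SUB_P (Jd d) (SUB_da N1 fun e => a (N1 * d + e)) ((c1 + u) / N1)‖ ^ 2)) := by
    intro c1 hc1
    have hlt : ∀ c ∈ Cc c1, c < N2 := by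
      intro c hc
      rw [hCc] at hc
      simp only [Finset.mem_image] at hc
      obtain ⟨x, _, rfl⟩ := hc
      exact Nat.mod_lt _ hN2
    have hm := MON_proof.2.2.2.2 N2 (Cc c1) (Cc c1) hN2 hlt (Finset.Subset.refl _)
    have e3 : ∀ v : ℝ, SUB_P J a ((c1 + v) / N1) = ∑ d ∈ Jp, SUB_P (Jd d) (fun e => a (N1 * d + e)) ((c1 + v) / N1) * e1 (d * v) := fun v => SUB_split N1 hN1 J a c1 v
    simp only [e3]
    have e4 := SUB_A (cel N2 (Cc c1)) hm.1 hm.2.1 Jp Q2 (H2 c1 hc1) (fun d u => SUB_P (Jd d) (fun e => a (N1 * d + e)) ((c1 + u) / N1))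
      (fun d u => SUB_P (Jd d) (SUB_da N1 fun e => a (N1 * d + e)) ((c1 + u) / N1)) (fun d u => SUB_Pd _ _ _ _ _)
      (fun d => (SUB_Pc _ _).comp (by fun_prop))
    refine e4.trans ?_
    have e5 : ∀ d ∈ Jp, ‖SUB_P (Jd d) (fun e => a (N1 * d + e)) ((c1 + 0) / N1)‖ ^ 2 + (∫ u in Ioc (0 : ℝ) 1, ‖SUB_P (Jd d) (SUB_da N1 fun e => a (N1 * d + e)) ((c1 + u) / N1)‖ ^ 2) ≤
        2 * (∫ u in Ioc (0 : ℝ) 1, ‖SUB_P (Jd d) (fun e => a (N1 * d + e)) ((c1 + u) / N1)‖ ^ 2) +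
        3 * ∫ u in Ioc (0 : ℝ) 1, ‖SUB_P (Jd d) (SUB_da N1 fun e => a (N1 * d + e)) ((c1 + u) / N1)‖ ^ 2 := by
      intro d _
      have e6 := SUB_B (fun u => SUB_P (Jd d) (fun e => a (N1 * d + e)) ((c1 + u) / N1)) (fun u => SUB_P (Jd d) (SUB_da N1 fun e => a (N1 * d + e)) ((c1 + u) / N1))
        (fun u => SUB_Pd _ _ _ _ _) ((SUB_Pc _ _).comp (by fun_prop))
      linarith
    have e7 := Finset.sum_le_sum e5
    have e8 := mul_le_mul_of_nonneg_left e7 hQ2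
    linarith
  have e9 : ∑ c1 ∈ Cp, (N1 : ℝ)⁻¹ * ∫ v in cel N2 (Cc c1), ‖SUB_P J a ((c1 + v) / N1)‖ ^ 2 ≤ ∑ c1 ∈ Cp, (N1 : ℝ)⁻¹ * (2 * (Q2 * ∑ d ∈ Jp, (2 * (∫ u in Ioc (0 : ℝ) 1, ‖SUB_P (Jd d) (fun e => a (N1 * d + e)) ((c1 + u) / N1)‖ ^ 2) +
        3 * ∫ u in Ioc (0 : ℝ) 1, ‖SUB_P (Jd d) (SUB_da N1 fun e => a (N1 * d + e)) ((c1 + u) / N1)‖ ^ 2))) :=
    Finset.sum_le_sum fun c1 hc1 => mul_le_mul_of_nonneg_left (e2 c1 hc1) (by positivity)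
  refine e9.trans ?_
  -- exchange the sums
  have e10 : ∑ c1 ∈ Cp, (N1 : ℝ)⁻¹ * (2 * (Q2 * ∑ d ∈ Jp, (2 * (∫ u in Ioc (0 : ℝ) 1, ‖SUB_P (Jd d) (fun e => a (N1 * d + e)) ((c1 + u) / N1)‖ ^ 2) +
        3 * ∫ u in Ioc (0 : ℝ) 1, ‖SUB_P (Jd d) (SUB_da N1 fun e => a (N1 * d + e)) ((c1 + u) / N1)‖ ^ 2))) =
      2 * Q2 * ∑ d ∈ Jp, (2 * (∫ v in cel N1 Cp, ‖SUB_P (Jd d) (fun e => a (N1 * d + e)) v‖ ^ 2) + 3 * ∫ v in cel N1 Cp, ‖SUB_P (Jd d) (SUB_da N1 fun e => a (N1 * d + e)) v‖ ^ 2) := by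
    have e11 : ∀ d, (2 * (∫ v in cel N1 Cp, ‖SUB_P (Jd d) (fun e => a (N1 * d + e)) v‖ ^ 2) + 3 * ∫ v in cel N1 Cp, ‖SUB_P (Jd d) (SUB_da N1 fun e => a (N1 * d + e)) v‖ ^ 2) =
        ∑ c1 ∈ Cp, (N1 : ℝ)⁻¹ * (2 * (∫ u in Ioc (0 : ℝ) 1, ‖SUB_P (Jd d) (fun e => a (N1 * d + e)) ((c1 + u) / N1)‖ ^ 2) +
        3 * ∫ u in Ioc (0 : ℝ) 1, ‖SUB_P (Jd d) (SUB_da N1 fun e => a (N1 * d + e)) ((c1 + u) / N1)‖ ^ 2) := by
      intro d
      rw [SUB_cel N1 hN1 Cp (fun v => ‖SUB_P (Jd d) (fun e => a (N1 * d + e)) v‖ ^ 2) (((SUB_Pc _ _).norm).pow 2),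
        SUB_cel N1 hN1 Cp (fun v => ‖SUB_P (Jd d) (SUB_da N1 fun e => a (N1 * d + e)) v‖ ^ 2) (((SUB_Pc _ _).norm).pow 2), Finset.mul_sum, Finset.mul_sum, ← Finset.sum_add_distrib]
      refine Finset.sum_congr rfl fun c1 _ => ?_
      ring
    simp only [e11]
    rw [Finset.sum_comm, Finset.mul_sum]
    refine Finset.sum_congr rfl fun c1 _ => ?_
    rw [← Finset.mul_sum]
    ring
  rw [e10]
  have e12 : ∀ d ∈ Jp, (2 * (∫ v in cel N1 Cp, ‖SUB_P (Jd d) (fun e => a (N1 * d + e)) v‖ ^ 2) + 3 * ∫ v in cel N1 Cp, ‖SUB_P (Jd d) (SUB_da N1 fun e => a (N1 * d + e)) v‖ ^ 2) ≤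
      (2 + 12 * Real.pi ^ 2) * Q1 * ∑ e ∈ Jd d, ‖a (N1 * d + e)‖ ^ 2 := by
    intro d hd
    have e13 : ∫ v in cel N1 Cp, ‖SUB_P (Jd d) (fun e => a (N1 * d + e)) v‖ ^ 2 ≤ Q1 * ∑ e ∈ Jd d, ‖a (N1 * d + e)‖ ^ 2 := H1 d hd fun e => a (N1 * d + e)
    have e14 : ∫ v in cel N1 Cp, ‖SUB_P (Jd d) (SUB_da N1 fun e => a (N1 * d + e)) v‖ ^ 2 ≤ Q1 * ∑ e ∈ Jd d, ‖SUB_da N1 (fun e => a (N1 * d + e)) e‖ ^ 2 := H1 d hd _
    have hle : ∀ j ∈ Jd d, j ≤ N1 := by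
      intro j hj
      rw [hJd] at hj
      simp only [Finset.mem_image] at hj
      obtain ⟨x, _, rfl⟩ := hj
      exact (Nat.mod_lt _ hN1).le
    have e15 := mul_le_mul_of_nonneg_left (SUB_dan N1 (Jd d) hle hN1 fun e => a (N1 * d + e)) hQ1
    nlinarith
  have e16 := Finset.sum_le_sum e12
  rw [← Finset.mul_sum] at e16
  have e17 : ∑ j ∈ J, ‖a j‖ ^ 2 = ∑ d ∈ Jp, ∑ e ∈ Jd d, ‖a (N1 * d + e)‖ ^ 2 := SUB_fib J N1 fun j => ‖a j‖ ^ 2
  rw [← e17] at e16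
  have e18 := mul_le_mul_of_nonneg_left e16 (by positivity : 0 ≤ 2 * Q2)
  refine e18.trans (le_of_eq ?_)
  ring

end

end Pool.Agent.T1
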